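import Pool.Agent.H91.LB.Def

/-!
# Smoothed Fatou, lower bound: the two probabilistic statements with explicit dependence on `τ`
-/

set_option autoImplicit false

open Finset MeasureTheory

namespace Pool.Agent.H91.LB

open Pool.H70.SF Pool.Agent.H73.ES Pool.Agent.H41.RF

/-- one event has probability `≥ a exp (- b / τ ^ 2) d ^ (-3)` -/
def AwLowE : Prop :=
  ∃ a b : ℝ, 0 < a ∧ 0 ≤ b ∧ ∀ τ : ℝ, 0 < τ → τ ≤ 1 → ∀ d : ℕ, 2 ≤ d → ∀ (A : ℝ) (X0 : CV d), 0 ≤ A → Ctr X0 →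
    gau A X0 τ Set.univ = 1 → ∀ w, IsU w →
    ENNReal.ofReal (a * Real.exp (-(b / τ ^ 2)) / (d : ℝ) ^ 3) ≤ gau A X0 τ {X | AW w X}

/-- two distant events have probability `≤ C τ ^ (-14) d ^ (-6)` -/
def AwPairE : Prop :=
  ∀ ε : ℝ, 0 < ε → ∃ C : ℝ, 0 ≤ C ∧ ∀ τ : ℝ, 0 < τ → ∀ d : ℕ, 4 ≤ d → ∀ (A : ℝ) (X0 : CV d), 0 ≤ A →
    gau A X0 τ Set.univ ≤ 1 → ∀ w w', IsU w → IsU w' → ε / Real.sqrt d ≤ ‖wd w w'‖ →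
    gau A X0 τ {X | AW w X ∧ AW w' X} ≤ ENNReal.ofReal (C / (τ ^ 14 * (d : ℝ) ^ 6))

end Pool.Agent.H91.LB
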