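import Pool.Agent.H91.LB.Fin
import Pool.Agent.H91.LB.DefE
import Pool.Agent.H73.LB.LowE
import Pool.Agent.H73.LB.PairE

/-!
# Lower bound with explicit dependence on `τ`, for all `τ > 0`
-/

set_option autoImplicit false

open Finset MeasureTheory

namespace Pool.Agent.H91.LB

open Pool.H70.SF Pool.Agent.H73.ES Pool.Agent.H41.RF

theorem lower_coreE (hL : AwLowE) (hP : AwPairE) :
    ∃ C : ℝ, 0 < C ∧ ∀ (d : ℕ) (τ : ℝ), 0 < τ → τ ≤ 1 → C / τ ^ 2 ≤ Real.log d → ∀ X0 : CV d, Ctr X0 →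
      ENNReal.ofReal (Real.exp (-(C / τ ^ 2)) / d) ≤ gE d {ξ | Lat (XG X0 τ ξ)} := by
  obtain ⟨a, b, ha, hb, hlow⟩ := hL
  obtain ⟨ε, hε, d1, hdis⟩ := aw_dis
  obtain ⟨C2, hC2, hpair⟩ := hP ε hε
  obtain ⟨d2, hlat⟩ := aw_lat
  obtain ⟨M, hM⟩ : ∃ M : ℝ, M = 64 + d1 + d2 + 8192 / a + C2 / (128 * a) := ⟨_, rfl⟩
  have hM1 : (64 : ℝ) ≤ M := by
    have : 0 ≤ 8192 / a := by positivity
    have : 0 ≤ C2 / (128 * a) := by positivity
    have : (0 : ℝ) ≤ d1 := Nat.cast_nonneg _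
    have : (0 : ℝ) ≤ d2 := Nat.cast_nonneg _
    linarith
  have hMe : M ≤ Real.exp M := by
    have := Real.add_one_le_exp M
    linarith
  obtain ⟨C, hC⟩ : ∃ C : ℝ, C = M + b + 7 := ⟨_, rfl⟩
  refine ⟨C, by linarith, fun d τ hτ hτ1 hd X0 hX0 => ?_⟩
  have hτ2 : 0 < τ ^ 2 := by positivity
  have hx1 : 1 ≤ 1 / τ ^ 2 := by
    rw [le_div_iff₀ hτ2]
    nlinarith
  obtain ⟨x, hx⟩ : ∃ x : ℝ, x = 1 / τ ^ 2 := ⟨_, rfl⟩
  rw [← hx] at hx1
  have hCx : C / τ ^ 2 = C * x := by rw [hx]; ring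
  have hbx : b / τ ^ 2 = b * x := by rw [hx]; ring
  rw [hCx] at hd ⊢
  have hM0 : 0 ≤ M := by linarith
  have hCp : 0 < C * x := by
    have : 0 < C := by linarith
    positivity
  have hdpos : (0 : ℝ) < d := by
    rcases Nat.eq_zero_or_pos d with h | h
    · exfalso
      rw [h] at hd
      simp at hd
      linarith
    · exact_mod_cast h
  have hdE : Real.exp (C * x) ≤ d := by
    rw [← Real.exp_log hdpos]
    exact Real.exp_le_exp.2 hd
  have hdM : M ≤ d := by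
    refine hMe.trans (le_trans (Real.exp_le_exp.2 ?_) hdE)
    nlinarith
  have hd64 : 64 ≤ d := by
    have : (64 : ℝ) ≤ d := hM1.trans hdM
    exact_mod_cast this
  have hpa : 0 ≤ 8192 / a := by positivity
  have hpc : 0 ≤ C2 / (128 * a) := by positivity
  have hp1 : (0 : ℝ) ≤ d1 := Nat.cast_nonneg _
  have hp2 : (0 : ℝ) ≤ d2 := Nat.cast_nonneg _
  have hdd1 : d1 ≤ d := by
    have : (d1 : ℝ) ≤ d := le_trans (by linarith) hdM
    exact_mod_cast this
  have hdd2 : d2 ≤ d := by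
    have : (d2 : ℝ) ≤ d := le_trans (by linarith) hdM
    exact_mod_cast this
  have hMx : M ≤ Real.exp (M * x) := by
    refine hMe.trans (Real.exp_le_exp.2 ?_)
    nlinarith
  have h7 : (1 / τ ^ 2) ^ 7 ≤ Real.exp (7 * x) := by
    rw [← hx]
    have h1 : x ≤ Real.exp x := by
      have := Real.add_one_le_exp x
      linarith
    have h2 : Real.exp (7 * x) = Real.exp x ^ 7 := by
      rw [← Real.exp_nat_mul]
      norm_num
    rw [h2]
    gcongr
  have hcc : 0 < a * Real.exp (-(b * x)) := by positivity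
  have hone := lower_one (d := d) (τ := τ) (c := a * Real.exp (-(b * x))) (C := C2 / τ ^ 14) (ε := ε) hτ hcc
    (by positivity) hd64 ?_ (X0 := X0) (fun A hA0 h1 w hw => ?_) (fun A hA0 h1 w w' hw hw' h2 => ?_)
    (hlat d hdd2) (hdis d hdd1)
  · refine le_trans (ENNReal.ofReal_le_ofReal ?_) hone
    refine div_le_div_of_nonneg_right ?_ hdpos.le
    have h1 : Real.exp (-(C * x)) = Real.exp (-(b * x)) * Real.exp (-(M * x)) * Real.exp (-(7 * x)) := by
      rw [← Real.exp_add, ← Real.exp_add, hC]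
      congr 1
      ring
    have h2 : Real.exp (-(7 * x)) ≤ 1 := Real.exp_le_one_iff.2 (by linarith)
    have h3 : Real.exp (-(M * x)) ≤ a / 8192 := by
      rw [Real.exp_neg]
      have h4 : 8192 / a ≤ Real.exp (M * x) := le_trans (by linarith) hMx
      have h5 : a / 8192 = (8192 / a)⁻¹ := by rw [inv_div]
      rw [h5]
      exact inv_anti₀ (by positivity) h4
    rw [h1]
    calc Real.exp (-(b * x)) * Real.exp (-(M * x)) * Real.exp (-(7 * x))
        ≤ Real.exp (-(b * x)) * (a / 8192) * 1 := by gcongr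
      _ = a * Real.exp (-(b * x)) / 8192 := by ring
  · -- the size of `d`
    have h1 : C2 / τ ^ 14 / (128 * (a * Real.exp (-(b * x)))) =
        C2 / (128 * a) * (1 / τ ^ 2) ^ 7 * Real.exp (b * x) := by
      rw [Real.exp_neg]
      field_simp
    rw [h1]
    refine le_trans ?_ hdE
    have h2 : C2 / (128 * a) ≤ Real.exp (M * x) := le_trans (by linarith) hMx
    calc C2 / (128 * a) * (1 / τ ^ 2) ^ 7 * Real.exp (b * x)
        ≤ Real.exp (M * x) * Real.exp (7 * x) * Real.exp (b * x) := by gcongr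
      _ = Real.exp (C * x) := by
          rw [← Real.exp_add, ← Real.exp_add, hC]
          congr 1
          ring
  · have h3 := hlow τ hτ hτ1 d (by omega) A X0 hA0 hX0 h1 w hw
    rw [hbx] at h3
    exact h3
  · have h3 := hpair τ hτ d (by omega) A X0 hA0 h1 w w' hw hw' h2
    rwa [div_div]

theorem pol_smul {d : ℕ} (c : ℂ) (p : Fin (d + 1) → ℂ) (y : ℂ) :
    (Pool.Agent.H79.Eul.pol (c • p)).eval y = c * (Pool.Agent.H79.Eul.pol p).eval y := by
  unfold Pool.Agent.H79.Eul.pol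
  rw [Polynomial.eval_finsetSum, Polynomial.eval_finsetSum, Finset.mul_sum]
  refine Finset.sum_congr rfl fun k _ => ?_
  simp only [Polynomial.eval_mul, Polynomial.eval_C, Polynomial.eval_pow, Polynomial.eval_X, Pi.smul_apply, smul_eq_mul]
  ring

theorem lat_smul {d : ℕ} {c : ℂ} (hc : c ≠ 0) {X : CV d} (h : Lat X) : Lat (c • X) := by
  intro f hf
  refine h f fun y hy => ?_
  have h1 : (Pool.Agent.H79.Eul.pol (c • X).2).eval y = c * (Pool.Agent.H79.Eul.pol X.2).eval y := pol_smul c X.2 y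
  have h2 : (Pool.Agent.H79.Eul.pol (c • X).1).eval y = c * (Pool.Agent.H79.Eul.pol X.1).eval y := pol_smul c X.1 y
  rw [hf y (by rw [h1]; exact mul_ne_zero hc hy), h1, h2, mul_div_mul_left _ _ hc]

theorem ctr_smul {d : ℕ} {c : ℂ} (hc : ‖c‖ ≤ 1) {X : CV d} (h : Ctr X) : Ctr (c • X) := by
  have key : ∀ (p : Fin (d + 1) → ℂ) (z : ℂ × ℂ), hev (c • p) z = c * hev p z := by
    intro p z
    unfold hev
    rw [Finset.mul_sum]
    refine Finset.sum_congr rfl fun k _ => ?_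
    simp only [Pi.smul_apply, smul_eq_mul]
    ring
  intro z hz
  obtain ⟨h1, h2⟩ := h z hz
  have e1 : hev (c • X).1 z = c * hev X.1 z := key X.1 z
  have e2 : hev (c • X).2 z = c * hev X.2 z := key X.2 z
  rw [e1, e2, norm_mul, norm_mul]
  constructor
  · calc ‖c‖ * ‖hev X.1 z‖ ≤ 1 * 1 := by gcongr
      _ = 1 := one_mul 1
  · calc ‖c‖ * ‖hev X.2 z‖ ≤ 1 * 1 := by gcongr
      _ = 1 := one_mul 1

/-- the lower bound for all `τ > 0`: if `C (1 + 1 / τ ^ 2) ≤ log d`, then with probability at least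
`exp (- C (1 + 1 / τ ^ 2)) / d` some critical point is attracted to an attracting cycle -/
theorem lower_allE (hL : AwLowE) (hP : AwPairE) :
    ∃ C : ℝ, 0 < C ∧ ∀ (d : ℕ) (τ : ℝ), 0 < τ → C * (1 + 1 / τ ^ 2) ≤ Real.log d → ∀ X0 : CV d, Ctr X0 →
      ENNReal.ofReal (Real.exp (-(C * (1 + 1 / τ ^ 2))) / d) ≤ gE d {ξ | Lat (XG X0 τ ξ)} := by
  obtain ⟨C, hC, h⟩ := lower_coreE hL hP
  refine ⟨C, hC, fun d τ hτ hd X0 hX0 => ?_⟩
  have hτ2 : 0 < 1 / τ ^ 2 := by positivity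
  rcases le_total τ 1 with h1 | h1
  · have h2 : C / τ ^ 2 ≤ C * (1 + 1 / τ ^ 2) := by
      rw [mul_add, mul_one, mul_one_div]
      linarith
    refine le_trans (ENNReal.ofReal_le_ofReal ?_) (h d τ hτ h1 (h2.trans hd) X0 hX0)
    refine div_le_div_of_nonneg_right ?_ (Nat.cast_nonneg d)
    exact Real.exp_le_exp.2 (by linarith)
  · have h2 : C ≤ C * (1 + 1 / τ ^ 2) := by nlinarith
    have hτc : ((τ : ℝ) : ℂ) ≠ 0 := by exact_mod_cast hτ.ne'
    have h3 := h d 1 one_pos le_rfl (by rw [one_pow, div_one]; exact h2.trans hd) (((τ : ℂ)⁻¹) • X0)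
      (ctr_smul (by
        rw [norm_inv, Complex.norm_real, Real.norm_eq_abs, abs_of_pos hτ]
        exact inv_le_one_of_one_le₀ h1) hX0)
    refine le_trans (ENNReal.ofReal_le_ofReal ?_) (h3.trans (measure_mono ?_))
    · refine div_le_div_of_nonneg_right ?_ (Nat.cast_nonneg d)
      refine Real.exp_le_exp.2 ?_
      rw [one_pow, div_one]
      linarith
    · intro ξ hξ
      have h4 : XG X0 τ ξ = (τ : ℂ) • XG ((τ : ℂ)⁻¹ • X0) 1 ξ := by
        unfold XG
        rw [smul_add, smul_smul, mul_inv_cancel₀ hτc, one_smul, Complex.ofReal_one, one_smul]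
      show Lat (XG X0 τ ξ)
      rw [h4]
      exact lat_smul hτc hξ

/-- THE LOWER BOUND: there is `C` such that for all `τ > 0` and all `d` with `C (1 + 1 / τ ^ 2) ≤ log d` and every
admissible centre `X0`: with probability at least `exp (- C (1 + 1 / τ ^ 2)) / d` some critical point of the random map is
attracted to an attracting cycle -/
theorem lower_all :
    ∃ C : ℝ, 0 < C ∧ ∀ (d : ℕ) (τ : ℝ), 0 < τ → C * (1 + 1 / τ ^ 2) ≤ Real.log d → ∀ X0 : CV d, Ctr X0 →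
      ENNReal.ofReal (Real.exp (-(C * (1 + 1 / τ ^ 2))) / d) ≤ gE d {ξ | Lat (XG X0 τ ξ)} :=
  lower_allE Pool.Agent.H73.LB.aw_lowE Pool.Agent.H73.LB.aw_pairE

end Pool.Agent.H91.LB
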