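import Pool.Agent.H73.ES.Meas
import Pool.Agent.H41.RF.Law
import Pool.Agent.H32.BT.Defs
import Pool.Agent.H79.Eul.Defs

/-!
# Smoothed Fatou (MP_8f2e1c_an), lower bound for the probability of an attracting cycle: the interface

Claim (`AwLow`, `AwPair`, `AwLat`, `AwDis` and `lower`): for fixed `τ` the probability that a critical point of the random map is
attracted to an attracting cycle is at least `c / d`. The event `AW w X` at the unit vector `w` (a grid of about `d ^ 2` points): the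
value at `w` is within `1 / (768 d)` of `w`, the derivative at `w` is at most `1 / 768`, the second derivative has size about `d`:
then the disc of radius `1 / (48 d)` at `w` is mapped into itself and contains a critical point. One such event has probability
`≥ c d ^ (-3)` (`AwLow`), two of them at distance `≥ ε / √d` have probability `≤ C d ^ (-6)` (`AwPair`), and two at distance
between `10 / d` and `ε / √d` are disjoint (`AwDis`).
-/

set_option autoImplicit false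

open Finset MeasureTheory

namespace Pool.Agent.H91.LB

open Pool.H70.SF Pool.Agent.H73.ES Pool.Agent.H41.RF

/-- a critical point of the map given by `X` is attracted to an attracting cycle (for every map of the sphere which agrees
with the quotient of the two polynomials where the denominator is nonzero) -/
def Lat {d : ℕ} (X : CV d) : Prop :=
  ∀ f : OnePoint ℂ → OnePoint ℂ,
    (∀ y : ℂ, (Pool.Agent.H79.Eul.pol X.2).eval y ≠ 0 →
      f (y : OnePoint ℂ) = (((Pool.Agent.H79.Eul.pol X.1).eval y / (Pool.Agent.H79.Eul.pol X.2).eval y : ℂ) : OnePoint ℂ)) →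
    ∃ c, Pool.Agent.H32.BT.IsCrit f c ∧ Pool.Agent.H32.BT.Att f c

/-- the event at the unit vector `w` -/
structure AW {d : ℕ} (w : ℂ × ℂ) (X : CV d) : Prop where
  p0 : ‖wd w (FF X w)‖ ≤ 1 / (768 * d)
  p1 : ‖wd w (jv X w 1)‖ ≤ 1 / 768
  p2l : (d : ℝ) ≤ ‖wd w (jv X w 2)‖
  p2u : ‖wd w (jv X w 2)‖ ≤ 3 * d
  q0l : 1 ≤ ‖hm (FF X w) w‖
  q0u : ‖hm (FF X w) w‖ ≤ 3
  bd : ∀ k, ‖wd w (jv X w k)‖ ≤ 9 * (2 * Real.sqrt d) ^ k ∧ ‖hm (jv X w k) w‖ ≤ 9 * (2 * Real.sqrt d) ^ k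

/-- the unit vector of the point `z` -/
noncomputable def wz (z : ℂ) : ℂ × ℂ :=
  (((Real.sqrt (1 + ‖z‖ ^ 2))⁻¹ : ℝ) : ℂ) • ((z, 1) : ℂ × ℂ)

/-- one event has probability `≥ c d ^ (-3)` -/
def AwLow : Prop :=
  ∀ τ : ℝ, 0 < τ → τ ≤ 1 → ∃ c : ℝ, 0 < c ∧ ∀ d : ℕ, 2 ≤ d → ∀ (A : ℝ) (X0 : CV d), 0 ≤ A → Ctr X0 →
    gau A X0 τ Set.univ = 1 → ∀ w, IsU w →
    ENNReal.ofReal (c / (d : ℝ) ^ 3) ≤ gau A X0 τ {X | AW w X}

/-- two distant events have probability `≤ C d ^ (-6)` -/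
def AwPair : Prop :=
  ∀ ε τ : ℝ, 0 < ε → 0 < τ → ∃ C : ℝ, 0 ≤ C ∧ ∀ d : ℕ, 4 ≤ d → ∀ (A : ℝ) (X0 : CV d), 0 ≤ A →
    gau A X0 τ Set.univ ≤ 1 → ∀ w w', IsU w → IsU w' → ε / Real.sqrt d ≤ ‖wd w w'‖ →
    gau A X0 τ {X | AW w X ∧ AW w' X} ≤ ENNReal.ofReal (C / (d : ℝ) ^ 6)

/-- the disc at `w` is mapped into itself and contains a critical point -/
def AwLat : Prop :=
  ∃ d0 : ℕ, ∀ d ≥ d0, ∀ z : ℂ, ‖z‖ ≤ 1 → ∀ X : CV d, AW (wz z) X → Lat X

/-- near events are disjoint -/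
def AwDis : Prop :=
  ∃ ε : ℝ, 0 < ε ∧ ∃ d0 : ℕ, ∀ d ≥ d0, ∀ w w', IsU w → IsU w' → 10 / (d : ℝ) ≤ ‖wd w w'‖ →
    ‖wd w w'‖ ≤ ε / Real.sqrt d → ∀ X : CV d, AW w X → ¬ AW w' X

end Pool.Agent.H91.LB
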