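import Pool.Agent.H91.LB.Ctn
import Pool.Agent.H91.Fatou.Crit
import Pool.Agent.H32.BT.Defs

/-!
# Lower bound: the contracted disc contains a critical point attracted to an attracting fixed point
-/

set_option autoImplicit false

open Polynomial Filter Topology

namespace Pool.Agent.H91.LB

open Pool.Agent.H44.Fatou

theorem lat_core {n h : Polynomial ℂ} (H : PC n h) {f : OnePoint ℂ → OnePoint ℂ} {Φ : ℂ → ℂ}
    (hf : ∀ s : ℂ, ‖s‖ ≤ 1 / 48 → f ((Φ s : ℂ) : OnePoint ℂ) = ((Φ (n.eval s / h.eval s) : ℂ) : OnePoint ℂ))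
    (hc : ∀ s : ℂ, ‖s‖ < 1 / 48 → ContinuousAt Φ s)
    (hinj : ∀ x y : ℂ, ‖x‖ < 1 / 48 → ‖y‖ < 1 / 48 → Φ x = Φ y → x = y)
    (hop : ∀ s : ℂ, ‖s‖ < 1 / 48 → ∀ᶠ y in 𝓝 (Φ s), ∃ s' : ℂ, ‖s'‖ < 1 / 48 ∧ Φ s' = y) :
    ∃ c, Pool.Agent.H32.BT.IsCrit f c ∧ Pool.Agent.H32.BT.Att f c := by
  obtain ⟨hmap, s2, hs2, hfix, hcon⟩ := con_map H
  obtain ⟨s1, hs1, hW⟩ := con_crit H
  set G : ℂ → ℂ := fun s => n.eval s / h.eval s with hG
  have hGk : ∀ (k : ℕ) (s : ℂ), ‖s‖ < 1 / 48 → ‖G^[k] s‖ < 1 / 48 ∧ ‖G^[k] s - s2‖ ≤ (1 / 2) ^ k * ‖s - s2‖ ∧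
      f^[k] ((Φ s : ℂ) : OnePoint ℂ) = ((Φ (G^[k] s) : ℂ) : OnePoint ℂ) := by
    intro k
    induction k with
    | zero =>
      intro s hs
      refine ⟨hs, ?_, rfl⟩
      simp
    | succ k ih =>
      intro s hs
      obtain ⟨h1, h2, h3⟩ := ih s hs
      rw [Function.iterate_succ_apply', Function.iterate_succ_apply', h3]
      refine ⟨hmap _ h1.le, ?_, hf _ h1.le⟩
      refine (hcon _ h1.le).trans ?_
      rw [pow_succ]
      linarith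
  have htend : ∀ s : ℂ, ‖s‖ < 1 / 48 →
      Tendsto (fun k : ℕ => f^[1 * k] ((Φ s : ℂ) : OnePoint ℂ)) atTop (𝓝 ((Φ s2 : ℂ) : OnePoint ℂ)) := by
    intro s hs
    have h1 : Tendsto (fun k : ℕ => G^[k] s) atTop (𝓝 s2) := by
      rw [tendsto_iff_norm_sub_tendsto_zero]
      refine squeeze_zero (fun k => norm_nonneg _) (fun k => (hGk k s hs).2.1) ?_
      have h2 : Tendsto (fun k : ℕ => (1 / 2 : ℝ) ^ k) atTop (𝓝 0) :=
        tendsto_pow_atTop_nhds_zero_of_lt_one (by norm_num) (by norm_num)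
      simpa using h2.mul_const ‖s - s2‖
    have h2 : Tendsto (fun k : ℕ => ((Φ (G^[k] s) : ℂ) : OnePoint ℂ)) atTop (𝓝 ((Φ s2 : ℂ) : OnePoint ℂ)) :=
      (OnePoint.continuous_coe.tendsto _).comp ((hc s2 hs2).tendsto.comp h1)
    refine h2.congr fun k => ?_
    rw [one_mul]
    exact (hGk k s hs).2.2.symm
  refine ⟨((Φ s1 : ℂ) : OnePoint ℂ), ?_, ((Φ s2 : ℂ) : OnePoint ℂ), 1, ⟨one_pos, ?_, ?_⟩, htend s1 hs1⟩
  · rintro ⟨V, hV, hinjV⟩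
    have hV' : (fun s : ℂ => ((Φ s : ℂ) : OnePoint ℂ)) ⁻¹' V ∩ Metric.ball 0 (1 / 48) ∈ 𝓝 s1 := by
      refine inter_mem ?_ (Metric.isOpen_ball.mem_nhds (by simpa using hs1))
      exact ((OnePoint.continuous_coe.continuousAt).comp (hc s1 hs1)).preimage_mem_nhds hV
    refine Pool.Agent.H91.Fatou.not_inj_of_wr hW ?_ hV' ?_
    · right
      have h1 := pc_h H hs1.le
      intro h0
      rw [h0, norm_zero] at h1
      linarith
    · rintro x ⟨hx, hx'⟩ y ⟨hy, hy'⟩ hxy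
      have hx1 : ‖x‖ < 1 / 48 := by simpa using hx'
      have hy1 : ‖y‖ < 1 / 48 := by simpa using hy'
      have ne : ∀ s : ℂ, ‖s‖ < 1 / 48 → h.eval s ≠ 0 := by
        intro s hs h0
        have h1 := pc_h H hs.le
        rw [h0, norm_zero] at h1
        linarith
      have h2 : n.eval x / h.eval x = n.eval y / h.eval y := by
        rw [div_eq_div_iff (ne x hx1) (ne y hy1)]
        exact hxy
      have h3 : f ((Φ x : ℂ) : OnePoint ℂ) = f ((Φ y : ℂ) : OnePoint ℂ) := by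
        rw [hf x hx1.le, hf y hy1.le, h2]
      exact hinj x y hx1 hy1 (OnePoint.coe_injective (hinjV hx hy h3))
  · rw [Function.iterate_one, hf s2 hs2.le, hfix]
  · have h1 : {y : ℂ | ∃ s' : ℂ, ‖s'‖ < 1 / 48 ∧ Φ s' = y} ∈ 𝓝 (Φ s2) := hop s2 hs2
    refine ⟨((↑) : ℂ → OnePoint ℂ) '' {y : ℂ | ∃ s' : ℂ, ‖s'‖ < 1 / 48 ∧ Φ s' = y},
      OnePoint.isOpenEmbedding_coe.image_mem_nhds.2 h1, ?_⟩
    rintro _ ⟨y, ⟨s', hs', rfl⟩, rfl⟩
    exact htend s' hs'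

end Pool.Agent.H91.LB
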