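import Pool.Agent.H91.LB.Def
import Pool.Agent.H91.LB.Att

/-!
# Lower bound: the event `AW` gives an attracted critical point (`aw_lat`)
-/

set_option autoImplicit false

open Polynomial Filter Topology

namespace Pool.Agent.H91.LB

open Pool.H70.SF Pool.Agent.H73.ES

/-- the component orthogonal to `w` on the line `w + t • pp w` -/
noncomputable def nP {d : ℕ} (X : CV d) (w : ℂ × ℂ) : Polynomial ℂ := C w.1 * rsP X.2 w - C w.2 * rsP X.1 w

/-- the component along `w` -/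
noncomputable def hP {d : ℕ} (X : CV d) (w : ℂ × ℂ) : Polynomial ℂ :=
  C (starRingEnd ℂ w.1) * rsP X.1 w + C (starRingEnd ℂ w.2) * rsP X.2 w

theorem nP_coeff {d : ℕ} (X : CV d) (w : ℂ × ℂ) (k : ℕ) : (nP X w).coeff k = wd w (jv X w k) := by
  unfold nP wd jv jt
  rw [coeff_sub, coeff_C_mul, coeff_C_mul]

theorem hP_coeff {d : ℕ} (X : CV d) (w : ℂ × ℂ) (k : ℕ) : (hP X w).coeff k = hm (jv X w k) w := by
  unfold hP hm jv jt
  rw [coeff_add, coeff_C_mul, coeff_C_mul]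
  ring

theorem nP_eval {d : ℕ} (X : CV d) (w : ℂ × ℂ) (t : ℂ) : (nP X w).eval t = wd w (FF X (w + t • pp w)) := by
  unfold nP wd FF
  rw [eval_sub, eval_mul, eval_mul, eval_C, eval_C, rs_eval, rs_eval]

theorem hP_eval {d : ℕ} (X : CV d) (w : ℂ × ℂ) (t : ℂ) : (hP X w).eval t = hm (FF X (w + t • pp w)) w := by
  unfold hP hm FF
  rw [eval_add, eval_mul, eval_mul, eval_C, eval_C, rs_eval, rs_eval]
  ring

/-- the scaled polynomials -/
noncomputable def nS {d : ℕ} (X : CV d) (w : ℂ × ℂ) : Polynomial ℂ := C (d : ℂ) * (nP X w).comp (C ((d : ℂ)⁻¹) * Polynomial.X)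

/-- the scaled polynomials -/
noncomputable def hS {d : ℕ} (X : CV d) (w : ℂ × ℂ) : Polynomial ℂ := (hP X w).comp (C ((d : ℂ)⁻¹) * Polynomial.X)

theorem nS_eval {d : ℕ} (X : CV d) (w : ℂ × ℂ) (s : ℂ) :
    (nS X w).eval s = d * wd w (FF X (w + ((d : ℂ)⁻¹ * s) • pp w)) := by
  unfold nS
  rw [eval_mul, eval_C, eval_comp, eval_mul, eval_C, eval_X, nP_eval]

theorem hS_eval {d : ℕ} (X : CV d) (w : ℂ × ℂ) (s : ℂ) :
    (hS X w).eval s = hm (FF X (w + ((d : ℂ)⁻¹ * s) • pp w)) w := by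
  unfold hS
  rw [eval_comp, eval_mul, eval_C, eval_X, hP_eval]

theorem nS_coeff {d : ℕ} (X : CV d) (w : ℂ × ℂ) (k : ℕ) :
    ‖(nS X w).coeff k‖ = d * (‖wd w (jv X w k)‖ * ((d : ℝ)⁻¹) ^ k) := by
  unfold nS
  rw [coeff_C_mul, comp_C_mul_X_coeff, nP_coeff, norm_mul, norm_mul, norm_pow, norm_inv, Complex.norm_natCast]

theorem hS_coeff {d : ℕ} (X : CV d) (w : ℂ × ℂ) (k : ℕ) :
    ‖(hS X w).coeff k‖ = ‖hm (jv X w k) w‖ * ((d : ℝ)⁻¹) ^ k := by
  unfold hS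
  rw [comp_C_mul_X_coeff, hP_coeff, norm_mul, norm_pow, norm_inv, Complex.norm_natCast]

theorem pc_of_aw {d : ℕ} (hd : 10 ^ 10 ≤ d) {w : ℂ × ℂ} {X : CV d} (H : AW w X) : PC (nS X w) (hS X w) := by
  have hD : (10 : ℝ) ^ 10 ≤ d := by exact_mod_cast hd
  have hD0 : (0 : ℝ) < d := lt_of_lt_of_le (by norm_num) hD
  have hs5 : (10 : ℝ) ^ 5 ≤ Real.sqrt d := by
    apply Real.le_sqrt_of_sq_le
    norm_num
    norm_num at hD
    exact hD
  have hs0 : 0 < Real.sqrt d := lt_of_lt_of_le (by norm_num) hs5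
  have hss : Real.sqrt d * Real.sqrt d = d := Real.mul_self_sqrt hD0.le
  set q : ℝ := 2 / Real.sqrt d with hq
  have hq0 : 0 < q := by positivity
  have hq1 : q ≤ 2 / 10 ^ 5 := by
    rw [hq]
    gcongr
  have hqk : ∀ k : ℕ, (2 * Real.sqrt d) ^ k * ((d : ℝ)⁻¹) ^ k = q ^ k := by
    intro k
    rw [← mul_pow]
    congr 1
    rw [hq]
    field_simp
    nlinarith
  have hdq : (d : ℝ) * q ^ 2 = 4 := by
    rw [hq, div_pow, Real.sq_sqrt hD0.le]
    field_simp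
    norm_num
  have h0 : jv X w 0 = FF X w := jv_zero X w
  refine ⟨?_, ?_, ?_, ?_, ?_, ?_, ?_, ?_⟩
  · rw [nS_coeff, h0, pow_zero, mul_one]
    have := H.p0
    calc (d : ℝ) * ‖wd w (FF X w)‖ ≤ d * (1 / (768 * d)) := by gcongr
      _ = 1 / 768 := by field_simp
  · rw [nS_coeff, pow_one]
    have h1 := H.p1
    have h2 : (d : ℝ) * (‖wd w (jv X w 1)‖ * (d : ℝ)⁻¹) = ‖wd w (jv X w 1)‖ := by field_simp
    rw [h2]
    exact h1
  · rw [nS_coeff]
    have h1 := H.p2l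
    have h2 : (d : ℝ) * (‖wd w (jv X w 2)‖ * (d : ℝ)⁻¹ ^ 2) = ‖wd w (jv X w 2)‖ / d := by field_simp
    rw [h2, le_div_iff₀ hD0]
    linarith
  · rw [nS_coeff]
    have h1 := H.p2u
    have h2 : (d : ℝ) * (‖wd w (jv X w 2)‖ * (d : ℝ)⁻¹ ^ 2) = ‖wd w (jv X w 2)‖ / d := by field_simp
    rw [h2, div_le_iff₀ hD0]
    exact h1
  · intro k hk
    rw [nS_coeff]
    have h1 := (H.bd k).1
    calc (d : ℝ) * (‖wd w (jv X w k)‖ * (d : ℝ)⁻¹ ^ k) ≤ d * ((9 * (2 * Real.sqrt d) ^ k) * (d : ℝ)⁻¹ ^ k) := by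
          gcongr
      _ = 9 * (d * q ^ k) := by
          rw [mul_assoc 9, hqk]
          ring
      _ ≤ 9 * (d * q ^ 3) := by
          have : q ^ k ≤ q ^ 3 := pow_le_pow_of_le_one hq0.le (hq1.trans (by norm_num)) hk
          gcongr
      _ = 9 * ((d * q ^ 2) * q) := by ring
      _ ≤ 1 / 1000 := by
          rw [hdq]
          norm_num at hq1
          linarith
  · rw [hS_coeff, h0, pow_zero, mul_one]
    exact H.q0l
  · rw [hS_coeff, h0, pow_zero, mul_one]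
    exact H.q0u
  · intro k hk
    rw [hS_coeff]
    have h1 := (H.bd k).2
    calc ‖hm (jv X w k) w‖ * (d : ℝ)⁻¹ ^ k ≤ (9 * (2 * Real.sqrt d) ^ k) * (d : ℝ)⁻¹ ^ k := by gcongr
      _ = 9 * q ^ k := by rw [mul_assoc 9, hqk]
      _ ≤ 9 * q ^ 1 := by
          have : q ^ k ≤ q ^ 1 := pow_le_pow_of_le_one hq0.le (hq1.trans (by norm_num)) hk
          gcongr
      _ ≤ 1 / 1000 := by
          norm_num at hq1 ⊢
          linarith

theorem hev_pol {d : ℕ} (p : Fin (d + 1) → ℂ) {w : ℂ × ℂ} (hw : w.2 ≠ 0) :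
    hev p w = w.2 ^ d * (Pool.Agent.H79.Eul.pol p).eval (w.1 / w.2) := by
  unfold hev Pool.Agent.H79.Eul.pol
  rw [eval_finsetSum, Finset.mul_sum]
  refine Finset.sum_congr rfl fun k _ => ?_
  rw [eval_mul, eval_C, eval_pow, eval_X]
  have hk : (k : ℕ) ≤ d := Nat.lt_succ_iff.1 k.2
  have h2 : w.2 ^ d = w.2 ^ (d - (k : ℕ)) * w.2 ^ (k : ℕ) := by
    rw [← pow_add, Nat.sub_add_cancel hk]
  rw [h2, div_pow]
  field_simp

theorem wz_u (z : ℂ) : IsU (wz z) := by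
  have h0 : (0 : ℝ) < 1 + ‖z‖ ^ 2 := by positivity
  have h1 : (Real.sqrt (1 + ‖z‖ ^ 2)) ^ 2 = 1 + ‖z‖ ^ 2 := Real.sq_sqrt h0.le
  unfold IsU n2 wz
  simp only [Prod.smul_fst, Prod.smul_snd, smul_eq_mul, mul_one, norm_mul, Complex.norm_real, Real.norm_eq_abs]
  rw [mul_pow, sq_abs, inv_pow, h1]
  field_simp
  ring

/-- the point of the line -/
theorem wz_line (z : ℂ) : ∃ a : ℂ, a ≠ 0 ∧ ∀ t : ℂ, wz z + t • pp (wz z) = (a * (z - t), a * (1 + t * starRingEnd ℂ z)) := by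
  have h0 : (0 : ℝ) < 1 + ‖z‖ ^ 2 := by positivity
  have h1 : 0 < Real.sqrt (1 + ‖z‖ ^ 2) := Real.sqrt_pos.2 h0
  refine ⟨(((Real.sqrt (1 + ‖z‖ ^ 2))⁻¹ : ℝ) : ℂ), ?_, fun t => ?_⟩
  · exact_mod_cast (inv_pos.2 h1).ne'
  · unfold wz pp
    ext
    · simp only [Prod.fst_add, Prod.smul_fst, Prod.smul_snd, smul_eq_mul, map_mul, Complex.conj_ofReal, mul_one]
      ring
    · simp only [Prod.snd_add, Prod.smul_fst, Prod.smul_snd, smul_eq_mul, map_mul, Complex.conj_ofReal, mul_one]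
      ring

theorem aw_lat : AwLat := by
  refine ⟨10 ^ 10, fun d hd z hz X H f hf => ?_⟩
  have hD : (10 : ℝ) ^ 10 ≤ d := by exact_mod_cast hd
  have hD0 : (0 : ℝ) < d := lt_of_lt_of_le (by norm_num) hD
  have hD1 : (1 : ℝ) ≤ d := le_trans (by norm_num) hD
  have hdne : (d : ℂ) ≠ 0 := by exact_mod_cast hD0.ne'
  have P := pc_of_aw hd H
  obtain ⟨a, ha, hline⟩ := wz_line z
  have hwu : IsU (wz z) := wz_u z
  set b : ℂ := starRingEnd ℂ z with hb
  have hbn : ‖b‖ = ‖z‖ := RCLike.norm_conj z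
  have hzz : z * b = ((‖z‖ ^ 2 : ℝ) : ℂ) := by
    rw [hb, Complex.mul_conj, Complex.normSq_eq_norm_sq]
  have hzne : (1 : ℂ) + z * b ≠ 0 := by
    rw [hzz]
    have : (0 : ℝ) < 1 + ‖z‖ ^ 2 := by positivity
    exact_mod_cast this.ne'
  have hden : ∀ s : ℂ, ‖s‖ < 1 → 1 + (d : ℂ)⁻¹ * s * b ≠ 0 := by
    intro s hs h0
    have h1 : (d : ℂ)⁻¹ * s * b = -1 := by linear_combination h0
    have h2 : ‖(d : ℂ)⁻¹ * s * b‖ < 1 := by
      rw [norm_mul, norm_mul, norm_inv, Complex.norm_natCast, hbn]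
      have h3 : (d : ℝ)⁻¹ ≤ 1 := inv_le_one_of_one_le₀ hD1
      have h4 : (0 : ℝ) < (d : ℝ)⁻¹ := inv_pos.2 hD0
      calc (d : ℝ)⁻¹ * ‖s‖ * ‖z‖ ≤ 1 * ‖s‖ * 1 := by gcongr
        _ < 1 := by linarith
    rw [h1] at h2
    simp at h2
  set Φ : ℂ → ℂ := fun s => (z - (d : ℂ)⁻¹ * s) / (1 + (d : ℂ)⁻¹ * s * b) with hΦ
  refine lat_core P (Φ := Φ) ?_ ?_ ?_ ?_
  · intro s hs
    obtain ⟨hmap, -⟩ := con_map P
    have hg := hmap s hs
    have hh0 := pc_h P hs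
    have hhne : (hS X (wz z)).eval s ≠ 0 := by
      intro h0
      rw [h0, norm_zero] at hh0
      linarith
    set g : ℂ := (nS X (wz z)).eval s / (hS X (wz z)).eval s with hgd
    set t : ℂ := (d : ℂ)⁻¹ * s with ht
    set p : ℂ × ℂ := wz z + t • pp (wz z) with hp
    have hp2 : p.2 ≠ 0 := by
      rw [hp, hline t]
      exact mul_ne_zero ha (hden s (by linarith))
    have hpy : p.1 / p.2 = Φ s := by
      rw [hp, hline t, hΦ]
      show a * (z - t) / (a * (1 + t * b)) = _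
      rw [mul_div_mul_left _ _ ha]
    have hN : wd (wz z) (FF X p) = (d : ℂ)⁻¹ * g * hm (FF X p) (wz z) := by
      have h1 := nS_eval X (wz z) s
      have h2 := hS_eval X (wz z) s
      rw [← ht, ← hp] at h1 h2
      rw [hgd, h1, h2]
      rw [h2] at hhne
      field_simp
    set q : ℂ := hm (FF X p) (wz z) with hq
    have hqne : q ≠ 0 := by
      have h2 := hS_eval X (wz z) s
      rw [← ht, ← hp] at h2
      rw [hq, ← h2]
      exact hhne
    have hF : FF X p = q • (a * (z - (d : ℂ)⁻¹ * g), a * (1 + (d : ℂ)⁻¹ * g * b)) := by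
      have h1 := dec hwu (FF X p)
      rw [hN, ← hq] at h1
      rw [← hline, h1, smul_add, smul_smul]
      congr 2
      ring
    have hF1 : hev X.1 p = q * (a * (z - (d : ℂ)⁻¹ * g)) := congrArg Prod.fst hF
    have hF2 : hev X.2 p = q * (a * (1 + (d : ℂ)⁻¹ * g * b)) := congrArg Prod.snd hF
    have hdg : 1 + (d : ℂ)⁻¹ * g * b ≠ 0 := hden g (by linarith)
    rw [hev_pol X.1 hp2, hpy] at hF1
    rw [hev_pol X.2 hp2, hpy] at hF2
    have hpd : p.2 ^ d ≠ 0 := pow_ne_zero _ hp2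
    have hne2 : (Pool.Agent.H79.Eul.pol X.2).eval (Φ s) ≠ 0 := by
      intro h0
      rw [h0, mul_zero] at hF2
      exact (mul_ne_zero hqne (mul_ne_zero ha hdg)) hF2.symm
    rw [hf (Φ s) hne2]
    congr 1
    have h5 : (Pool.Agent.H79.Eul.pol X.1).eval (Φ s) / (Pool.Agent.H79.Eul.pol X.2).eval (Φ s) =
        (q * (a * (z - (d : ℂ)⁻¹ * g))) / (q * (a * (1 + (d : ℂ)⁻¹ * g * b))) := by
      rw [← hF1, ← hF2, mul_div_mul_left _ _ hpd]
    rw [h5, mul_div_mul_left _ _ hqne, mul_div_mul_left _ _ ha]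
  · intro s hs
    have h1 := hden s (by linarith)
    rw [hΦ]
    fun_prop (disch := assumption)
  · intro x y hx hy hxy
    have h1 := hden x (by linarith)
    have h2 := hden y (by linarith)
    rw [hΦ] at hxy
    have h3 : (z - (d : ℂ)⁻¹ * x) / (1 + (d : ℂ)⁻¹ * x * b) = (z - (d : ℂ)⁻¹ * y) / (1 + (d : ℂ)⁻¹ * y * b) := hxy
    rw [div_eq_div_iff h1 h2] at h3
    have h4 : (d : ℂ)⁻¹ * ((y - x) * (1 + z * b)) = 0 := by linear_combination h3
    rcases mul_eq_zero.1 h4 with h5 | h5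
    · exact absurd h5 (inv_ne_zero hdne)
    · rcases mul_eq_zero.1 h5 with h6 | h6
      · exact (sub_eq_zero.1 h6).symm
      · exact absurd h6 hzne
  · intro s hs
    have h1 := hden s (by linarith)
    have e1 : Φ s * (1 + (d : ℂ)⁻¹ * s * b) = z - (d : ℂ)⁻¹ * s := div_mul_cancel₀ _ h1
    have h2 : 1 + Φ s * b = (1 + z * b) / (1 + (d : ℂ)⁻¹ * s * b) := by
      rw [eq_div_iff h1]
      linear_combination b * e1
    have h3 : 1 + Φ s * b ≠ 0 := by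
      rw [h2]
      exact div_ne_zero hzne h1
    set Ψ : ℂ → ℂ := fun y => d * (z - y) / (1 + y * b) with hΨ
    have h4 : ContinuousAt Ψ (Φ s) := by
      rw [hΨ]
      fun_prop (disch := assumption)
    have h5 : Ψ (Φ s) = s := by
      have h6 : Ψ (Φ s) = d * (z - Φ s) / (1 + Φ s * b) := rfl
      rw [h6, div_eq_iff h3]
      have e2 : (d : ℂ) * (d : ℂ)⁻¹ = 1 := mul_inv_cancel₀ hdne
      linear_combination (-(d : ℂ)) * e1 + (s * (1 + Φ s * b)) * e2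
    have h6 : ∀ᶠ y in 𝓝 (Φ s), ‖Ψ y‖ < 1 / 48 := by
      have h7 : ContinuousAt (fun y => ‖Ψ y‖) (Φ s) := h4.norm
      have h8 : ‖Ψ (Φ s)‖ < 1 / 48 := by rw [h5]; exact hs
      exact h7.eventually_lt continuousAt_const h8
    have h7 : ∀ᶠ y in 𝓝 (Φ s), 1 + y * b ≠ 0 := by
      have h8 : ContinuousAt (fun y : ℂ => 1 + y * b) (Φ s) := by fun_prop
      exact h8.eventually_ne h3
    filter_upwards [h6, h7] with y hy1 hy2
    refine ⟨Ψ y, hy1, ?_⟩
    have h8 : Φ (Ψ y) = (z - (d : ℂ)⁻¹ * (d * (z - y) / (1 + y * b))) /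
        (1 + (d : ℂ)⁻¹ * (d * (z - y) / (1 + y * b)) * b) := rfl
    have h9 : (d : ℂ)⁻¹ * (d * (z - y) / (1 + y * b)) = (z - y) / (1 + y * b) := by field_simp
    have e3 : (z - y) / (1 + y * b) * (1 + y * b) = z - y := div_mul_cancel₀ _ hy2
    have h10 : (1 : ℂ) + (z - y) / (1 + y * b) * b = (1 + z * b) / (1 + y * b) := by
      rw [eq_div_iff hy2]
      linear_combination b * e3
    rw [h8, h9, h10, div_div_eq_mul_div, div_eq_iff hzne]
    linear_combination -e3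

end Pool.Agent.H91.LB
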