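import Pool.Agent.H91.LB.Frm

/-!
# Lower bound: Bonferroni inequality and the grid
-/

set_option autoImplicit false

open Finset MeasureTheory

namespace Pool.Agent.H91.LB

open Pool.H70.SF Pool.Agent.H73.ES

theorem bonf {α ι : Type*} [MeasurableSpace α] [DecidableEq ι] (μ : Measure α) (A : ι → Set α)
    (hA : ∀ i, MeasurableSet (A i)) (s : Finset ι) :
    ∑ i ∈ s, μ (A i) ≤ μ (⋃ i ∈ s, A i) + ∑ i ∈ s, ∑ j ∈ s.erase i, μ (A i ∩ A j) := by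
  induction s using Finset.induction_on with
  | empty => simp
  | insert a s ha ih =>
    have hU : MeasurableSet (⋃ i ∈ s, A i) := Finset.measurableSet_biUnion s fun i _ => hA i
    have h1 : (⋃ i ∈ insert a s, A i) = A a ∪ ⋃ i ∈ s, A i := by
      rw [Finset.set_biUnion_insert]
    have h2 : μ (A a) + μ (⋃ i ∈ s, A i) ≤ μ (A a ∪ ⋃ i ∈ s, A i) + ∑ j ∈ s, μ (A a ∩ A j) := by
      rw [← measure_union_add_inter (A a) hU]
      gcongr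
      rw [Set.inter_iUnion₂]
      exact measure_biUnion_finset_le s _
    rw [Finset.sum_insert ha, Finset.sum_insert ha, Finset.erase_insert ha, h1]
    have h3 : ∑ i ∈ s, ∑ j ∈ s.erase i, μ (A i ∩ A j) ≤ ∑ i ∈ s, ∑ j ∈ (insert a s).erase i, μ (A i ∩ A j) := by
      refine Finset.sum_le_sum fun i _ => Finset.sum_le_sum_of_subset ?_
      exact Finset.erase_subset_erase i (Finset.subset_insert a s)
    calc μ (A a) + ∑ i ∈ s, μ (A i)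
        ≤ μ (A a) + (μ (⋃ i ∈ s, A i) + ∑ i ∈ s, ∑ j ∈ s.erase i, μ (A i ∩ A j)) := by gcongr
      _ = (μ (A a) + μ (⋃ i ∈ s, A i)) + ∑ i ∈ s, ∑ j ∈ s.erase i, μ (A i ∩ A j) := by rw [add_assoc]
      _ ≤ (μ (A a ∪ ⋃ i ∈ s, A i) + ∑ j ∈ s, μ (A a ∩ A j)) +
          ∑ i ∈ s, ∑ j ∈ (insert a s).erase i, μ (A i ∩ A j) := by gcongr
      _ = _ := by rw [add_assoc]

/-- the grid points -/
noncomputable def gz (d : ℕ) (i : ℕ × ℕ) : ℂ := (16 / (d : ℂ)) * ((i.1 : ℂ) + (i.2 : ℂ) * Complex.I)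

theorem gz_le {d N : ℕ} (hd : 1 ≤ d) (hN : 32 * N ≤ d) {i : ℕ × ℕ} (hi : i.1 ≤ N ∧ i.2 ≤ N) :
    ‖gz d i‖ ^ 2 ≤ 1 / 2 := by
  have hD0 : (0 : ℝ) < d := by exact_mod_cast hd
  have h1 : ‖gz d i‖ ^ 2 = (16 / d) ^ 2 * ((i.1 : ℝ) ^ 2 + (i.2 : ℝ) ^ 2) := by
    unfold gz
    rw [norm_mul, mul_pow, norm_div, Complex.norm_natCast]
    congr 1
    · norm_num
    · rw [← Complex.normSq_eq_norm_sq, Complex.normSq_apply]
      simp
      ring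
  have h2 : (i.1 : ℝ) ≤ d / 32 := by
    have : (32 * N : ℝ) ≤ d := by exact_mod_cast hN
    have h3 : (i.1 : ℝ) ≤ N := by exact_mod_cast hi.1
    linarith
  have h3 : (i.2 : ℝ) ≤ d / 32 := by
    have : (32 * N : ℝ) ≤ d := by exact_mod_cast hN
    have h3 : (i.2 : ℝ) ≤ N := by exact_mod_cast hi.2
    linarith
  rw [h1]
  calc (16 / (d : ℝ)) ^ 2 * ((i.1 : ℝ) ^ 2 + (i.2 : ℝ) ^ 2)
      ≤ (16 / (d : ℝ)) ^ 2 * ((d / 32) ^ 2 + (d / 32) ^ 2) := by gcongr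
    _ = 1 / 2 := by
      field_simp
      norm_num

theorem gz_dist {d : ℕ} (hd : 1 ≤ d) {i j : ℕ × ℕ} (hij : i ≠ j) : 16 / (d : ℝ) ≤ ‖gz d i - gz d j‖ := by
  have hD0 : (0 : ℝ) < d := by exact_mod_cast hd
  have h1 : gz d i - gz d j = (16 / (d : ℂ)) * (((i.1 : ℝ) - (j.1 : ℝ) : ℝ) + ((i.2 : ℝ) - (j.2 : ℝ) : ℝ) * Complex.I) := by
    unfold gz
    push_cast
    ring
  have h2 : (1 : ℝ) ≤ ‖((((i.1 : ℝ) - (j.1 : ℝ) : ℝ) : ℂ) + (((i.2 : ℝ) - (j.2 : ℝ) : ℝ) : ℂ) * Complex.I)‖ := by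
    have key : ∀ a b : ℕ, a ≠ b → (1 : ℝ) ≤ |(a : ℝ) - (b : ℝ)| := by
      intro a b hab
      have h3 : (1 : ℤ) ≤ |(a : ℤ) - (b : ℤ)| := by
        apply Int.one_le_abs
        omega
      exact_mod_cast h3
    rcases ne_or_eq i.1 j.1 with h | h
    · refine (key _ _ h).trans ?_
      have h3 := Complex.abs_re_le_norm ((((i.1 : ℝ) - (j.1 : ℝ) : ℝ) : ℂ) + (((i.2 : ℝ) - (j.2 : ℝ) : ℝ) : ℂ) * Complex.I)
      simpa using h3
    · have h4 : i.2 ≠ j.2 := by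
        intro h5
        exact hij (Prod.ext h h5)
      refine (key _ _ h4).trans ?_
      have h3 := Complex.abs_im_le_norm ((((i.1 : ℝ) - (j.1 : ℝ) : ℝ) : ℂ) + (((i.2 : ℝ) - (j.2 : ℝ) : ℝ) : ℂ) * Complex.I)
      simpa using h3
  rw [h1, norm_mul, norm_div, Complex.norm_natCast]
  have h3 : ‖(16 : ℂ)‖ = 16 := by norm_num
  rw [h3]
  calc 16 / (d : ℝ) = 16 / (d : ℝ) * 1 := (mul_one _).symm
    _ ≤ _ := by gcongr

theorem wz_wd (z z' : ℂ) : ‖wd (wz z) (wz z')‖ =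
    (Real.sqrt (1 + ‖z‖ ^ 2))⁻¹ * (Real.sqrt (1 + ‖z'‖ ^ 2))⁻¹ * ‖z - z'‖ := by
  have h1 : wd (wz z) (wz z') = (((Real.sqrt (1 + ‖z‖ ^ 2))⁻¹ : ℝ) : ℂ) * (((Real.sqrt (1 + ‖z'‖ ^ 2))⁻¹ : ℝ) : ℂ) *
      (z - z') := by
    unfold wd wz
    simp only [Prod.smul_fst, Prod.smul_snd, smul_eq_mul]
    ring
  rw [h1, norm_mul, norm_mul, Complex.norm_real, Complex.norm_real, Real.norm_eq_abs, Real.norm_eq_abs,
    abs_of_nonneg (by positivity), abs_of_nonneg (by positivity)]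

theorem gz_wd {d N : ℕ} (hd : 1 ≤ d) (hN : 32 * N ≤ d) {i j : ℕ × ℕ} (hi : i.1 ≤ N ∧ i.2 ≤ N) (hj : j.1 ≤ N ∧ j.2 ≤ N)
    (hij : i ≠ j) : 10 / (d : ℝ) ≤ ‖wd (wz (gz d i)) (wz (gz d j))‖ := by
  have hD0 : (0 : ℝ) < d := by exact_mod_cast hd
  rw [wz_wd]
  have h1 := gz_le hd hN hi
  have h2 := gz_le hd hN hj
  have h3 := gz_dist hd hij
  have key : ∀ x : ℝ, 0 ≤ x → x ≤ 1 / 2 → 4 / 5 ≤ (Real.sqrt (1 + x))⁻¹ := by
    intro x h0 hx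
    have h4 : Real.sqrt (1 + x) ≤ 5 / 4 := by
      rw [Real.sqrt_le_left (by norm_num)]
      linarith
    have h5 : 0 < Real.sqrt (1 + x) := Real.sqrt_pos.2 (by linarith)
    rw [le_inv_comm₀ (by norm_num) h5]
    norm_num
    exact h4
  have k1 := key _ (sq_nonneg ‖gz d i‖) h1
  have k2 := key _ (sq_nonneg ‖gz d j‖) h2
  calc 10 / (d : ℝ) ≤ 4 / 5 * (4 / 5) * (16 / d) := by
        rw [← mul_div_assoc]
        gcongr
        norm_num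
    _ ≤ _ := by gcongr

end Pool.Agent.H91.LB
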