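import Mathlib
import Pool.Agent.H44.Fatou.Basic

/-!
# Lower bound: a rational map with a small value and a small derivative contracts a disc which contains a critical point
-/

set_option autoImplicit false

open Polynomial

namespace Pool.Agent.H91.LB

open Pool.Agent.H44.Fatou

theorem evb (p : Polynomial ℂ) {A : ℝ} (hA : 0 ≤ A) (h : ∀ k, 1 ≤ k → ‖p.coeff k‖ ≤ A * 8 ^ k) {s : ℂ}
    (hs : ‖s‖ ≤ 1 / 48) : ‖p.eval s - p.coeff 0‖ ≤ A / 5 := by
  have h1 : p.eval s - p.coeff 0 = ∑ k ∈ Finset.range p.natDegree, p.coeff (k + 1) * s ^ (k + 1) := by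
    rw [p.eval_eq_sum_range, Finset.sum_range_succ']
    simp
  rw [h1]
  have h2 : ∀ n : ℕ, ∑ k ∈ Finset.range n, A * (1 / 6 : ℝ) ^ (k + 1) = A / 5 * (1 - (1 / 6) ^ n) := by
    intro n
    induction n with
    | zero => simp
    | succ n ih =>
      rw [Finset.sum_range_succ, ih]
      ring
  calc ‖∑ k ∈ Finset.range p.natDegree, p.coeff (k + 1) * s ^ (k + 1)‖
      ≤ ∑ k ∈ Finset.range p.natDegree, A * (1 / 6 : ℝ) ^ (k + 1) := by
        refine (norm_sum_le _ _).trans (Finset.sum_le_sum fun k _ => ?_)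
        rw [norm_mul, norm_pow]
        calc ‖p.coeff (k + 1)‖ * ‖s‖ ^ (k + 1) ≤ (A * 8 ^ (k + 1)) * (1 / 48) ^ (k + 1) := by
              gcongr
              exact h (k + 1) (by omega)
          _ = A * (1 / 6 : ℝ) ^ (k + 1) := by
              rw [mul_assoc, ← mul_pow]
              norm_num
    _ = A / 5 * (1 - (1 / 6) ^ p.natDegree) := h2 _
    _ ≤ A / 5 := by
        have : (0 : ℝ) ≤ (1 / 6) ^ p.natDegree := by positivity
        nlinarith

theorem disc_fix {T T' : ℂ → ℂ} {ρ : ℝ} (hρ : 0 < ρ) (hd : ∀ s, ‖s‖ ≤ ρ → HasDerivAt T (T' s) s)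
    (hb : ∀ s, ‖s‖ ≤ ρ → ‖T' s‖ ≤ 1 / 2) (h0 : ‖T 0‖ < ρ / 2) :
    (∀ s, ‖s‖ ≤ ρ → ‖T s‖ < ρ) ∧
    ∃ s0, ‖s0‖ < ρ ∧ T s0 = s0 ∧ ∀ s, ‖s‖ ≤ ρ → ‖T s - s0‖ ≤ 1 / 2 * ‖s - s0‖ := by
  have hL : ∀ s t, ‖s‖ ≤ ρ → ‖t‖ ≤ ρ → ‖T s - T t‖ ≤ 1 / 2 * ‖s - t‖ := by
    intro s t hs ht
    refine Convex.norm_image_sub_le_of_norm_hasDerivWithin_le (f := T) (f' := T') (s := Metric.closedBall (0 : ℂ) ρ)
      (fun x hx => (hd x ?_).hasDerivWithinAt) (fun x hx => hb x ?_) (convex_closedBall 0 ρ) ?_ ?_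
    · simpa using hx
    · simpa using hx
    · simpa using ht
    · simpa using hs
  have hm : ∀ s, ‖s‖ ≤ ρ → ‖T s‖ < ρ := by
    intro s hs
    have h1 := hL s 0 hs (by simpa using hρ.le)
    rw [sub_zero] at h1
    have h2 : ‖T s‖ ≤ ‖T s - T 0‖ + ‖T 0‖ := by
      have := norm_add_le (T s - T 0) (T 0)
      rwa [sub_add_cancel] at this
    linarith
  refine ⟨hm, ?_⟩
  set K : Set ℂ := Metric.closedBall (0 : ℂ) ρ with hK
  have hKc : IsComplete K := (isCompact_closedBall (0 : ℂ) ρ).isComplete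
  have hmaps : Set.MapsTo T K K := by
    intro s hs
    rw [hK, mem_closedBall_zero_iff] at hs ⊢
    exact (hm s hs).le
  have hcon : ContractingWith (1 / 2 : NNReal) (hmaps.restrict T K K) := by
    refine ⟨by
      rw [← NNReal.coe_lt_coe]
      norm_num, LipschitzWith.of_dist_le_mul fun x y => ?_⟩
    have h3 := hL x y (mem_closedBall_zero_iff.1 x.2) (mem_closedBall_zero_iff.1 y.2)
    rw [Subtype.dist_eq, Subtype.dist_eq, dist_eq_norm, dist_eq_norm]
    exact_mod_cast h3
  obtain ⟨s0, hs0, hfix, -⟩ := hcon.exists_fixedPoint' hKc hmaps (x := (0 : ℂ))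
    (by rw [hK, mem_closedBall_zero_iff]; simpa using hρ.le) (edist_ne_top _ _)
  rw [hK, mem_closedBall_zero_iff] at hs0
  have hfix' : T s0 = s0 := hfix
  refine ⟨s0, ?_, hfix', fun s hs => ?_⟩
  · have h4 := hm s0 hs0
    rwa [hfix'] at h4
  · have h5 := hL s s0 hs hs0
    rwa [hfix'] at h5

/-- numerator and denominator of the map in the scaled chart -/
structure PC (n h : Polynomial ℂ) : Prop where
  n0 : ‖n.coeff 0‖ ≤ 1 / 768
  n1 : ‖n.coeff 1‖ ≤ 1 / 768
  n2l : 1 ≤ ‖n.coeff 2‖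
  n2u : ‖n.coeff 2‖ ≤ 3
  n3 : ∀ k, 3 ≤ k → ‖n.coeff k‖ ≤ 1 / 1000
  h0l : 1 ≤ ‖h.coeff 0‖
  h0u : ‖h.coeff 0‖ ≤ 3
  h1 : ∀ k, 1 ≤ k → ‖h.coeff k‖ ≤ 1 / 1000

private theorem pw8 (k : ℕ) : ((k : ℝ) + 1) * ((k : ℝ) + 2) ≤ 2 * 8 ^ k ∧ (1 ≤ k → ((k : ℝ) + 1) * ((k : ℝ) + 2) ≤ 8 ^ k) := by
  induction k with
  | zero => norm_num
  | succ n ih =>
    obtain ⟨h1, -⟩ := ih
    have hn : (0 : ℝ) ≤ n := Nat.cast_nonneg n
    have h2 : ((n : ℝ) + 1 + 1) * ((n : ℝ) + 1 + 2) ≤ 8 / 2 * (((n : ℝ) + 1) * ((n : ℝ) + 2)) := by nlinarith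
    have h3 : ((n : ℝ) + 1 + 1) * ((n : ℝ) + 1 + 2) ≤ 8 ^ (n + 1) := by
      rw [pow_succ]
      linarith
    push_cast
    refine ⟨?_, fun _ => h3⟩
    have : (0 : ℝ) < 8 ^ (n + 1) := by positivity
    linarith

theorem pc_bounds {n h : Polynomial ℂ} (H : PC n h) {s : ℂ} (hs : ‖s‖ ≤ 1 / 48) :
    ‖h.eval s - h.coeff 0‖ ≤ 1 / 5000 ∧ ‖(derivative h).eval s‖ ≤ 1 / 800 ∧
    ‖(derivative (derivative h)).eval s‖ ≤ 1 / 400 ∧ ‖n.eval s‖ ≤ 1 / 90 ∧
    ‖(derivative n).eval s‖ ≤ 1 / 6 ∧ ‖(derivative (derivative n)).eval s - 2 * n.coeff 2‖ ≤ 1 / 5000 := by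
  have c1 : ∀ (p : Polynomial ℂ) (k : ℕ), ‖(derivative p).coeff k‖ = ‖p.coeff (k + 1)‖ * ((k : ℝ) + 1) := by
    intro p k
    rw [coeff_derivative, norm_mul]
    congr 1
    have : ((k : ℂ) + 1) = (((k : ℝ) + 1 : ℝ) : ℂ) := by push_cast; ring
    rw [this, Complex.norm_real, Real.norm_eq_abs, abs_of_nonneg (by positivity)]
  have c2 : ∀ (p : Polynomial ℂ) (k : ℕ), ‖(derivative (derivative p)).coeff k‖ =
      ‖p.coeff (k + 2)‖ * (((k : ℝ) + 1) * ((k : ℝ) + 2)) := by
    intro p k
    rw [c1, c1]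
    push_cast
    ring
  have p8 : ∀ k : ℕ, (1 : ℝ) ≤ 8 ^ k := fun k => one_le_pow₀ (by norm_num)
  have pk : ∀ k : ℕ, (k : ℝ) + 1 ≤ 8 ^ k := by
    intro k
    have h1 := (pw8 k).1
    have h2 : (0 : ℝ) ≤ k := Nat.cast_nonneg k
    nlinarith
  refine ⟨?_, ?_, ?_, ?_, ?_, ?_⟩
  · refine (evb h (A := 1 / 1000) (by norm_num) (fun k hk => ?_) hs).trans (by norm_num)
    have := H.h1 k hk
    have := p8 k
    linarith
  · have h1 := evb (derivative h) (A := 1 / 1000) (by norm_num) (fun k hk => ?_) hs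
    · have h2 := c1 h 0
      have h3 := H.h1 1 le_rfl
      have h4 : ‖(derivative h).eval s‖ ≤ ‖(derivative h).eval s - (derivative h).coeff 0‖ + ‖(derivative h).coeff 0‖ := by
        have := norm_add_le ((derivative h).eval s - (derivative h).coeff 0) ((derivative h).coeff 0)
        rwa [sub_add_cancel] at this
      norm_num at h2
      linarith
    · rw [c1]
      have h2 := H.h1 (k + 1) (by omega)
      have h3 := pk k
      have h4 : (0 : ℝ) ≤ (k : ℝ) + 1 := by positivity
      have hgc : ‖h.coeff (k + 1)‖ * ((k : ℝ) + 1) ≤ 1 / 1000 * 8 ^ k := by gcongr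
      exact hgc
  · have h1 := evb (derivative (derivative h)) (A := 1 / 1000) (by norm_num) (fun k hk => ?_) hs
    · have h2 := c2 h 0
      have h3 := H.h1 2 (by norm_num)
      have h4 : ‖(derivative (derivative h)).eval s‖ ≤ ‖(derivative (derivative h)).eval s -
          (derivative (derivative h)).coeff 0‖ + ‖(derivative (derivative h)).coeff 0‖ := by
        have := norm_add_le ((derivative (derivative h)).eval s - (derivative (derivative h)).coeff 0)
          ((derivative (derivative h)).coeff 0)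
        rwa [sub_add_cancel] at this
      norm_num at h2
      linarith
    · rw [c2]
      have h2 := H.h1 (k + 2) (by omega)
      have h3 := (pw8 k).2 hk
      have hgc : ‖h.coeff (k + 2)‖ * (((k : ℝ) + 1) * ((k : ℝ) + 2)) ≤ 1 / 1000 * 8 ^ k := by gcongr
      exact hgc
  · have h1 := evb n (A := 3 / 64) (by norm_num) (fun k hk => ?_) hs
    · have h4 : ‖n.eval s‖ ≤ ‖n.eval s - n.coeff 0‖ + ‖n.coeff 0‖ := by
        have := norm_add_le (n.eval s - n.coeff 0) (n.coeff 0)
        rwa [sub_add_cancel] at this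
      have := H.n0
      linarith
    · rcases Nat.lt_or_ge k 2 with h2 | h2
      · have h3 : k = 1 := by omega
        subst h3
        have := H.n1
        linarith
      · rcases Nat.lt_or_ge k 3 with h3 | h3
        · have h4 : k = 2 := by omega
          subst h4
          have := H.n2u
          linarith
        · have := H.n3 k h3
          have h5 := p8 k
          linarith
  · have h1 := evb (derivative n) (A := 3 / 4) (by norm_num) (fun k hk => ?_) hs
    · have h2 := c1 n 0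
      have h3 := H.n1
      have h4 : ‖(derivative n).eval s‖ ≤ ‖(derivative n).eval s - (derivative n).coeff 0‖ + ‖(derivative n).coeff 0‖ := by
        have := norm_add_le ((derivative n).eval s - (derivative n).coeff 0) ((derivative n).coeff 0)
        rwa [sub_add_cancel] at this
      norm_num at h2
      linarith
    · rw [c1]
      rcases Nat.lt_or_ge k 2 with h2 | h2
      · have h3 : k = 1 := by omega
        subst h3
        have := H.n2u
        norm_num
        linarith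
      · have h3 := H.n3 (k + 1) (by omega)
        have h4 := pk k
        have h5 : ‖n.coeff (k + 1)‖ * ((k : ℝ) + 1) ≤ 1 / 1000 * 8 ^ k := by gcongr
        have h6 : (0 : ℝ) < 8 ^ k := by positivity
        linarith
  · have h1 := evb (derivative (derivative n)) (A := 1 / 1000) (by norm_num) (fun k hk => ?_) hs
    · have h2 : (derivative (derivative n)).coeff 0 = 2 * n.coeff 2 := by
        rw [coeff_derivative, coeff_derivative]
        push_cast
        ring
      rw [h2] at h1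
      linarith
    · rw [c2]
      have h2 := H.n3 (k + 2) (by omega)
      have h3 := (pw8 k).2 hk
      have hgc : ‖n.coeff (k + 2)‖ * (((k : ℝ) + 1) * ((k : ℝ) + 2)) ≤ 1 / 1000 * 8 ^ k := by gcongr
      exact hgc

theorem pc_h {n h : Polynomial ℂ} (H : PC n h) {s : ℂ} (hs : ‖s‖ ≤ 1 / 48) : 99 / 100 ≤ ‖h.eval s‖ := by
  obtain ⟨h1, -⟩ := pc_bounds H hs
  have h2 : ‖h.coeff 0‖ ≤ ‖h.coeff 0 - h.eval s‖ + ‖h.eval s‖ := by
    have := norm_add_le (h.coeff 0 - h.eval s) (h.eval s)
    rwa [sub_add_cancel] at this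
  rw [norm_sub_rev] at h2
  have := H.h0l
  linarith

/-- the contraction -/
theorem con_map {n h : Polynomial ℂ} (H : PC n h) :
    (∀ s, ‖s‖ ≤ 1 / 48 → ‖n.eval s / h.eval s‖ < 1 / 48) ∧
    ∃ s0, ‖s0‖ < 1 / 48 ∧ n.eval s0 / h.eval s0 = s0 ∧
      ∀ s, ‖s‖ ≤ 1 / 48 → ‖n.eval s / h.eval s - s0‖ ≤ 1 / 2 * ‖s - s0‖ := by
  refine disc_fix (T := fun s => n.eval s / h.eval s)
    (T' := fun s => ((derivative n).eval s * h.eval s - n.eval s * (derivative h).eval s) / (h.eval s) ^ 2)
    (by norm_num) (fun s hs => ?_) (fun s hs => ?_) ?_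
  · have hh := pc_h H hs
    have hne : h.eval s ≠ 0 := by
      intro h0
      rw [h0, norm_zero] at hh
      linarith
    exact (n.hasDerivAt s).div (h.hasDerivAt s) hne
  · have hh := pc_h H hs
    obtain ⟨h1, h2, h3, h4, h5, h6⟩ := pc_bounds H hs
    have hpos : 0 < ‖h.eval s‖ := by linarith
    have h7 : ((derivative n).eval s * h.eval s - n.eval s * (derivative h).eval s) / (h.eval s) ^ 2 =
        (derivative n).eval s / h.eval s - n.eval s * (derivative h).eval s / (h.eval s) ^ 2 := by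
      have hne : h.eval s ≠ 0 := norm_pos_iff.1 hpos
      field_simp
    show ‖((derivative n).eval s * h.eval s - n.eval s * (derivative h).eval s) / (h.eval s) ^ 2‖ ≤ 1 / 2
    rw [h7]
    refine (norm_sub_le _ _).trans ?_
    rw [norm_div, norm_div, norm_mul, norm_pow]
    have h8 : ‖(derivative n).eval s‖ / ‖h.eval s‖ ≤ 1 / 5 := by
      rw [div_le_iff₀ hpos]
      linarith
    have h9 : ‖n.eval s‖ * ‖(derivative h).eval s‖ / ‖h.eval s‖ ^ 2 ≤ 1 / 100 := by
      rw [div_le_iff₀ (by positivity)]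
      have h10 : ‖n.eval s‖ * ‖(derivative h).eval s‖ ≤ 1 / 90 * (1 / 800) := by gcongr
      nlinarith
    linarith
  · show ‖n.eval 0 / h.eval 0‖ < _
    rw [← coeff_zero_eq_eval_zero, ← coeff_zero_eq_eval_zero, norm_div]
    have h1 := H.h0l
    have h2 := H.n0
    rw [div_lt_iff₀ (by linarith)]
    linarith

/-- the critical point -/
theorem con_crit {n h : Polynomial ℂ} (H : PC n h) :
    ∃ s0, ‖s0‖ < 1 / 48 ∧ (Wr n h).eval s0 = 0 := by
  set q : ℂ := 2 * n.coeff 2 * h.coeff 0 with hq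
  have hqn : 2 ≤ ‖q‖ := by
    rw [hq, norm_mul, norm_mul]
    have h1 := H.n2l
    have h2 := H.h0l
    have h3 : ‖(2 : ℂ)‖ = 2 := by simp
    rw [h3]
    nlinarith
  have hqne : q ≠ 0 := by
    intro h0
    rw [h0, norm_zero] at hqn
    linarith
  have hdw : derivative (Wr n h) = derivative (derivative n) * h - n * derivative (derivative h) := by
    unfold Wr
    simp only [derivative_sub, derivative_mul]
    ring
  have key : ∃ s0, ‖s0‖ < 1 / 48 ∧ s0 - (Wr n h).eval s0 / q = s0 := by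
    obtain ⟨-, s0, hs0, hfix, -⟩ : (∀ s, ‖s‖ ≤ 1 / 48 → ‖s - (Wr n h).eval s / q‖ < 1 / 48) ∧
        ∃ s0, ‖s0‖ < 1 / 48 ∧ s0 - (Wr n h).eval s0 / q = s0 ∧
          ∀ s, ‖s‖ ≤ 1 / 48 → ‖s - (Wr n h).eval s / q - s0‖ ≤ 1 / 2 * ‖s - s0‖ := by
      refine disc_fix (T := fun s => s - (Wr n h).eval s / q)
        (T' := fun s => 1 - (derivative (Wr n h)).eval s / q) (ρ := 1 / 48)
        (by norm_num) (fun s hs => ?_) (fun s hs => ?_) ?_
      · exact (hasDerivAt_id s).sub (((Wr n h).hasDerivAt s).div_const q)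
      · obtain ⟨h1, h2, h3, h4, h5, h6⟩ := pc_bounds H hs
        have h7 : 1 - (derivative (Wr n h)).eval s / q =
            -(((derivative (derivative n)).eval s - 2 * n.coeff 2) * h.eval s +
              2 * n.coeff 2 * (h.eval s - h.coeff 0) - n.eval s * (derivative (derivative h)).eval s) / q := by
          rw [hdw, eval_sub, eval_mul, eval_mul]
          field_simp
          rw [hq]
          ring
        show ‖1 - (derivative (Wr n h)).eval s / q‖ ≤ 1 / 2
        rw [h7, norm_div, norm_neg]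
        have h8 : ‖h.eval s‖ ≤ 4 := by
          have := norm_add_le (h.eval s - h.coeff 0) (h.coeff 0)
          rw [sub_add_cancel] at this
          have := H.h0u
          linarith
        rw [div_le_iff₀ (by linarith)]
        have h9 : ‖((derivative (derivative n)).eval s - 2 * n.coeff 2) * h.eval s +
              2 * n.coeff 2 * (h.eval s - h.coeff 0) - n.eval s * (derivative (derivative h)).eval s‖ ≤
            1 / 5000 * 4 + 2 * 3 * (1 / 5000) + 1 / 90 * (1 / 400) := by
          refine (norm_sub_le _ _).trans (add_le_add ((norm_add_le _ _).trans (add_le_add ?_ ?_)) ?_)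
          · rw [norm_mul]
            gcongr
          · rw [norm_mul, norm_mul]
            have h3 : ‖(2 : ℂ)‖ = 2 := by simp
            rw [h3]
            have := H.n2u
            gcongr
          · rw [norm_mul]
            gcongr
        linarith
      · show ‖(0 : ℂ) - (Wr n h).eval 0 / q‖ < _
        rw [zero_sub, norm_neg, norm_div]
        have h1 : (Wr n h).eval 0 = n.coeff 1 * h.coeff 0 - n.coeff 0 * h.coeff 1 := by
          unfold Wr
          rw [eval_sub, eval_mul, eval_mul, ← coeff_zero_eq_eval_zero, ← coeff_zero_eq_eval_zero,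
            ← coeff_zero_eq_eval_zero, ← coeff_zero_eq_eval_zero, coeff_derivative, coeff_derivative]
          push_cast
          ring
        have h2 : ‖(Wr n h).eval 0‖ ≤ 1 / 768 * 3 + 1 / 768 * (1 / 1000) := by
          rw [h1]
          refine (norm_sub_le _ _).trans (add_le_add ?_ ?_)
          · rw [norm_mul]
            have := H.n1
            have := H.h0u
            gcongr
          · rw [norm_mul]
            have := H.n0
            have := H.h1 1 le_rfl
            gcongr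
        rw [div_lt_iff₀ (by linarith)]
        nlinarith
    exact ⟨s0, hs0, hfix⟩
  obtain ⟨s0, hs0, hfix⟩ := key
  refine ⟨s0, hs0, ?_⟩
  have h1 : (Wr n h).eval s0 / q = 0 := by linear_combination -hfix
  rcases div_eq_zero_iff.1 h1 with h2 | h2
  · exact h2
  · exact absurd h2 hqne

end Pool.Agent.H91.LB
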