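import Pool.Agent.H91.LB.Bon
import Pool.Agent.H91.LB.Ndj
import Pool.Agent.H73.LB.Low
import Pool.Agent.H73.LB.Pair

/-!
# Lower bound: the probability of an attracted critical point is at least `c / d`
-/

set_option autoImplicit false

open Finset MeasureTheory

namespace Pool.Agent.H91.LB

open Pool.H70.SF Pool.Agent.H73.ES Pool.Agent.H41.RF

theorem aw_meas {d : ℕ} (w : ℂ × ℂ) : MeasurableSet {X : CV d | AW w X} := by
  have hw : ∀ k, Continuous fun X : CV d => ‖wd w (jv X w k)‖ := by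
    intro k
    have h1 := jv_cont (d := d) w k
    unfold wd
    exact ((continuous_const.mul h1.snd).sub (continuous_const.mul h1.fst)).norm
  have hh : ∀ k, Continuous fun X : CV d => ‖hm (jv X w k) w‖ := by
    intro k
    have h1 := jv_cont (d := d) w k
    unfold hm
    exact ((h1.fst.mul continuous_const).add (h1.snd.mul continuous_const)).norm
  have hw0 : Continuous fun X : CV d => ‖wd w (FF X w)‖ := by
    have h1 := hw 0
    simp only [jv_zero] at h1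
    exact h1
  have hh0 : Continuous fun X : CV d => ‖hm (FF X w) w‖ := by
    have h1 := hh 0
    simp only [jv_zero] at h1
    exact h1
  have h1 : {X : CV d | AW w X} = {X | ‖wd w (FF X w)‖ ≤ 1 / (768 * d)} ∩ {X | ‖wd w (jv X w 1)‖ ≤ 1 / 768} ∩
      {X | (d : ℝ) ≤ ‖wd w (jv X w 2)‖} ∩ {X | ‖wd w (jv X w 2)‖ ≤ 3 * d} ∩ {X | 1 ≤ ‖hm (FF X w) w‖} ∩
      {X | ‖hm (FF X w) w‖ ≤ 3} ∩ (⋂ k, {X | ‖wd w (jv X w k)‖ ≤ 9 * (2 * Real.sqrt d) ^ k}) ∩
      (⋂ k, {X | ‖hm (jv X w k) w‖ ≤ 9 * (2 * Real.sqrt d) ^ k}) := by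
    ext X
    simp only [Set.mem_ofPred_eq, Set.mem_inter_iff, Set.mem_iInter]
    constructor
    · intro H
      exact ⟨⟨⟨⟨⟨⟨⟨H.p0, H.p1⟩, H.p2l⟩, H.p2u⟩, H.q0l⟩, H.q0u⟩, fun k => (H.bd k).1⟩, fun k => (H.bd k).2⟩
    · rintro ⟨⟨⟨⟨⟨⟨⟨a1, a2⟩, a3⟩, a4⟩, a5⟩, a6⟩, a7⟩, a8⟩
      exact ⟨a1, a2, a3, a4, a5, a6, fun k => ⟨a7 k, a8 k⟩⟩
  rw [h1]
  refine ((((((((isClosed_le hw0 continuous_const).inter (isClosed_le (hw 1) continuous_const)).inter
    (isClosed_le continuous_const (hw 2))).inter (isClosed_le (hw 2) continuous_const)).inter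
    (isClosed_le continuous_const hh0)).inter (isClosed_le hh0 continuous_const)).inter
    (isClosed_iInter fun k => isClosed_le (hw k) continuous_const)).inter
    (isClosed_iInter fun k => isClosed_le (hh k) continuous_const)).measurableSet

/-- the union of the events for one pair `d, τ` -/
theorem lower_one {d : ℕ} {τ c C ε : ℝ} (hτ : 0 < τ) (hc : 0 < c) (hC : 0 ≤ C) (hd3 : 64 ≤ d)
    (hd4 : C / (128 * c) ≤ d) {X0 : CV d}
    (hlow : ∀ A : ℝ, 0 ≤ A → gau A X0 τ Set.univ = 1 → ∀ w, IsU w →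
      ENNReal.ofReal (c / (d : ℝ) ^ 3) ≤ gau A X0 τ {X | AW w X})
    (hpair : ∀ A : ℝ, 0 ≤ A → gau A X0 τ Set.univ ≤ 1 → ∀ w w', IsU w → IsU w' → ε / Real.sqrt d ≤ ‖wd w w'‖ →
      gau A X0 τ {X | AW w X ∧ AW w' X} ≤ ENNReal.ofReal (C / (d : ℝ) ^ 6))
    (hlat : ∀ z : ℂ, ‖z‖ ≤ 1 → ∀ X : CV d, AW (wz z) X → Lat X)
    (hdis : ∀ w w', IsU w → IsU w' → 10 / (d : ℝ) ≤ ‖wd w w'‖ →
      ‖wd w w'‖ ≤ ε / Real.sqrt d → ∀ X : CV d, AW w X → ¬ AW w' X) :
    ENNReal.ofReal (c / 8192 / d) ≤ gE d {ξ | Lat (XG X0 τ ξ)} := by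
  have hD0 : (0 : ℝ) < d := by exact_mod_cast (by omega : 0 < d)
  obtain ⟨A, hA0, hlaw⟩ := law_eq X0 hτ
  have hXm : Measurable (XG X0 τ : CV d → CV d) := by
    unfold XG Gs
    fun_prop
  have hprob : gau A X0 τ Set.univ = 1 := by
    rw [← hlaw, Measure.map_apply hXm MeasurableSet.univ, Set.preimage_univ, measure_univ]
  obtain ⟨N, hN⟩ : ∃ N : ℕ, N = d / 32 := ⟨_, rfl⟩
  have hN1 : 32 * N ≤ d := by omega
  have hN2 : d ≤ 64 * N := by omega
  have hN1' : (32 : ℝ) * N ≤ d := by exact_mod_cast hN1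
  have hN2' : (d : ℝ) ≤ 64 * N := by exact_mod_cast hN2
  set s : Finset (ℕ × ℕ) := range N ×ˢ range N with hs
  have hcard : (s.card : ℝ) = (N : ℝ) ^ 2 := by
    rw [hs, card_product, card_range]
    push_cast
    ring
  have hmem : ∀ i ∈ s, i.1 ≤ N ∧ i.2 ≤ N := by
    intro i hi
    rw [hs, mem_product, mem_range, mem_range] at hi
    exact ⟨hi.1.le, hi.2.le⟩
  set B : ℕ × ℕ → Set (CV d) := fun i => {X | AW (wz (gz d i)) X} with hB
  have hbon := bonf (gau A X0 τ) B (fun i => aw_meas _) s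
  have hlo : (N : ℝ) ^ 2 * (c / (d : ℝ) ^ 3) ≤ (N : ℝ) ^ 2 * (c / (d : ℝ) ^ 3) := le_rfl
  have h1 : ENNReal.ofReal ((N : ℝ) ^ 2 * (c / (d : ℝ) ^ 3)) ≤ ∑ i ∈ s, gau A X0 τ (B i) := by
    calc ENNReal.ofReal ((N : ℝ) ^ 2 * (c / (d : ℝ) ^ 3)) = ∑ i ∈ s, ENNReal.ofReal (c / (d : ℝ) ^ 3) := by
          rw [sum_const, nsmul_eq_mul, ← hcard, ENNReal.ofReal_mul (by positivity), ENNReal.ofReal_natCast]
      _ ≤ ∑ i ∈ s, gau A X0 τ (B i) := by
          refine sum_le_sum fun i _ => ?_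
          exact hlow A hA0.le hprob _ (wz_u _)
  have h2 : ∑ i ∈ s, ∑ j ∈ s.erase i, gau A X0 τ (B i ∩ B j) ≤
      ENNReal.ofReal ((N : ℝ) ^ 4 * (C / (d : ℝ) ^ 6)) := by
    have h3 : ∀ i ∈ s, ∑ j ∈ s.erase i, gau A X0 τ (B i ∩ B j) ≤ (N : ENNReal) ^ 2 * ENNReal.ofReal (C / (d : ℝ) ^ 6) := by
      intro i hi
      have h4 : ∀ j ∈ s.erase i, gau A X0 τ (B i ∩ B j) ≤ ENNReal.ofReal (C / (d : ℝ) ^ 6) := by
        intro j hj
        have hji : j ≠ i := (mem_erase.1 hj).1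
        have hjs := (mem_erase.1 hj).2
        have h10 := gz_wd (by omega : 1 ≤ d) hN1 (hmem i hi) (hmem j hjs) hji.symm
        rcases le_total (‖wd (wz (gz d i)) (wz (gz d j))‖) (ε / Real.sqrt d) with h5 | h5
        · have h6 : B i ∩ B j = ∅ := by
            ext X
            simp only [Set.mem_inter_iff, Set.mem_empty_iff_false, iff_false, not_and]
            intro hXi
            exact hdis _ _ (wz_u _) (wz_u _) h10 h5 X hXi
          rw [h6, measure_empty]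
          exact bot_le
        · exact hpair A hA0.le hprob.le _ _ (wz_u _) (wz_u _) h5
      calc ∑ j ∈ s.erase i, gau A X0 τ (B i ∩ B j) ≤ ∑ j ∈ s.erase i, ENNReal.ofReal (C / (d : ℝ) ^ 6) :=
            sum_le_sum h4
        _ ≤ ∑ j ∈ s, ENNReal.ofReal (C / (d : ℝ) ^ 6) := sum_le_sum_of_subset (erase_subset _ _)
        _ = (N : ENNReal) ^ 2 * ENNReal.ofReal (C / (d : ℝ) ^ 6) := by
            rw [sum_const, nsmul_eq_mul, hs, card_product, card_range]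
            push_cast
            ring
    calc ∑ i ∈ s, ∑ j ∈ s.erase i, gau A X0 τ (B i ∩ B j)
        ≤ ∑ i ∈ s, (N : ENNReal) ^ 2 * ENNReal.ofReal (C / (d : ℝ) ^ 6) := sum_le_sum h3
      _ = (N : ENNReal) ^ 4 * ENNReal.ofReal (C / (d : ℝ) ^ 6) := by
          rw [sum_const, nsmul_eq_mul, hs, card_product, card_range]
          push_cast
          ring
      _ = ENNReal.ofReal ((N : ℝ) ^ 4 * (C / (d : ℝ) ^ 6)) := by
          rw [ENNReal.ofReal_mul (by positivity), ENNReal.ofReal_pow (Nat.cast_nonneg N), ENNReal.ofReal_natCast]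
  have h3 : ENNReal.ofReal (c / 8192 / d) + ENNReal.ofReal ((N : ℝ) ^ 4 * (C / (d : ℝ) ^ 6)) ≤
      gau A X0 τ (⋃ i ∈ s, B i) + ENNReal.ofReal ((N : ℝ) ^ 4 * (C / (d : ℝ) ^ 6)) := by
    refine le_trans ?_ (h1.trans (hbon.trans (by gcongr)))
    rw [← ENNReal.ofReal_add (by positivity) (by positivity)]
    apply ENNReal.ofReal_le_ofReal
    have e1 : (N : ℝ) ^ 4 * (C / (d : ℝ) ^ 6) ≤ c / 8192 / d := by
      have e2 : (N : ℝ) ≤ d / 32 := by linarith
      calc (N : ℝ) ^ 4 * (C / (d : ℝ) ^ 6) ≤ (d / 32) ^ 4 * (C / (d : ℝ) ^ 6) := by gcongr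
        _ = C / (1048576 * (d : ℝ) ^ 2) := by
            field_simp
            norm_num
            ring
        _ ≤ c / 8192 / d := by
            rw [div_le_iff₀ (by positivity)] at hd4
            rw [div_div, div_le_div_iff₀ (by positivity) (by positivity)]
            nlinarith
    have e3 : c / 4096 / d ≤ (N : ℝ) ^ 2 * (c / (d : ℝ) ^ 3) := by
      have e2 : (d : ℝ) / 64 ≤ N := by linarith
      calc c / 4096 / d = (d / 64) ^ 2 * (c / (d : ℝ) ^ 3) := by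
            field_simp
            norm_num
        _ ≤ (N : ℝ) ^ 2 * (c / (d : ℝ) ^ 3) := by gcongr
    have e4 : c / 4096 / d = c / 8192 / d + c / 8192 / d := by ring
    linarith
  have h4 : ENNReal.ofReal (c / 8192 / d) ≤ gau A X0 τ (⋃ i ∈ s, B i) :=
    (ENNReal.add_le_add_iff_right ENNReal.ofReal_ne_top).1 h3
  refine h4.trans ?_
  rw [← hlaw, Measure.map_apply hXm (Finset.measurableSet_biUnion s fun i _ => aw_meas _)]
  refine measure_mono ?_
  intro ξ hξ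
  simp only [Set.mem_preimage, Set.mem_iUnion] at hξ
  obtain ⟨i, hi, hX⟩ := hξ
  have h5 := gz_le (by omega : 1 ≤ d) hN1 (hmem i hi)
  exact hlat (gz d i) (by nlinarith [norm_nonneg (gz d i)]) _ hX

theorem lower_core (hL : AwLow) (hP : AwPair) (hA : AwLat) (hD : AwDis) {τ : ℝ} (hτ : 0 < τ) (hτ1 : τ ≤ 1) :
    ∃ c : ℝ, 0 < c ∧ ∃ d0 : ℕ, ∀ d ≥ d0, ∀ X0 : CV d, Ctr X0 →
      ENNReal.ofReal (c / d) ≤ gE d {ξ | Lat (XG X0 τ ξ)} := by
  obtain ⟨c, hc, hlow⟩ := hL τ hτ hτ1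
  obtain ⟨ε, hε, d1, hdis⟩ := hD
  obtain ⟨C, hC, hpair⟩ := hP ε τ hε hτ
  obtain ⟨d2, hlat⟩ := hA
  refine ⟨c / 8192, by positivity, max (max d1 d2) (max 64 ⌈C / (128 * c)⌉₊), fun d hd X0 hX0 => ?_⟩
  have hd1 : d1 ≤ d := (le_trans (le_max_left _ _) (le_max_left _ _)).trans hd
  have hd2 : d2 ≤ d := (le_trans (le_max_right _ _) (le_max_left _ _)).trans hd
  have hd3 : 64 ≤ d := (le_trans (le_max_left _ _) (le_max_right _ _)).trans hd
  have hd4 : C / (128 * c) ≤ d :=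
    (Nat.le_ceil _).trans (by exact_mod_cast (le_trans (le_max_right _ _) (le_max_right _ _)).trans hd)
  exact lower_one hτ hc hC hd3 hd4 (fun A hA0 h1 => hlow d (by omega) A X0 hA0 hX0 h1)
    (fun A hA0 h1 => hpair d (by omega) A X0 hA0 h1) (hlat d hd2) (hdis d hd1)

/-- for every fixed size `τ` of the noise, the probability that a critical point of the random map is attracted to an
attracting cycle is at least `c / d` (uniformly in the centre) -/
theorem lower {τ : ℝ} (hτ : 0 < τ) (hτ1 : τ ≤ 1) :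
    ∃ c : ℝ, 0 < c ∧ ∃ d0 : ℕ, ∀ d ≥ d0, ∀ X0 : CV d, Ctr X0 →
      ENNReal.ofReal (c / d) ≤ gE d {ξ | Lat (XG X0 τ ξ)} :=
  lower_core Pool.Agent.H73.LB.aw_low Pool.Agent.H73.LB.aw_pair aw_lat aw_dis hτ hτ1

end Pool.Agent.H91.LB
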